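import Pool.Agent.N251.LF.Win
import Pool.Agent.N251.LF.Fields
import Pool.Agent.K6.H40.TropAll

/-!
# No atypical intersections for the members of all families at integers near the values of generic linear forms

**Families.** Let `A_1, …, A_m ⊂ ℤ ^ n` be arbitrary finite nonempty sets of exponents and let `c_jβ ∈ ℂ[t]` be nonzero
polynomials, `β ∈ A_j`. For `t ∈ ℂ` let `X_t ⊂ (ℂ^×) ^ n` be the algebraic set defined by the Laurent polynomials
`f_j = ∑_β c_jβ(t) x ^ β`, `j ≤ m` (`member`); every one-parameter family of subvarieties of the torus is of this form. We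
assume that the family is `Generic`: for some algebraic numbers `α_1, …, α_M` no linear subspace of `ℚ ^ n` of dimension less
than `r` meets all the tropicalizations of the family at the `α_l`. The set `X_t` is said to have no atypical intersections
(`NoAtypical r Γ`) if every irreducible subset of `X_t ∩ η H` has dimension at most `dim H - r`, for the cosets `η H` of all
algebraic subgroups `H` of the torus by all points `η` whose coordinates are units of the integral closure of `ℤ[Γ]` in `ℂ`
(in particular for all torsion cosets); then all components `V` of `X_t` have dimension at most `n - r`, and for those of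
dimension `n - r` the union `Atyp(V)` of the problem is empty.

Let `v_i`, `i` in a countable set, be vectors in `ℝ ^ k`, `O(X ^ (τ + ε))` of them of norm at most `X` for every `ε > 0`: for
instance `(1, l, …, l ^ d)` with `τ = 1 / d`, or `(b_1 ^ (l_1), …, b_k ^ (l_k))`, `b_j > 1`, for all `l_1, …, l_k`, with
`τ = 0`, or `(l_1 ^ (a_1), …, l_k ^ (a_k))` with `τ = ∑ 1 / a_j`. Let `θ < 1`. We show that for all `α` in `ℝ ^ k` outside a
set of Hausdorff dimension at most `k - 1 + τ / (1 - θ)` the following holds for ALL generic families of subvarieties of tori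
of all dimensions whose coefficients are polynomials over the algebraic numbers, all `r` and all finite sets `Γ` of algebraic
numbers: for all `C` and all but finitely many `i`, for EVERY integer `t` with `||t| - |α · v_i|| ≤ C ‖v_i‖ ^ θ`, the member
`X_t` has no atypical intersections. The bound is less than `k` if `τ + θ < 1`, so that this holds for almost all `α`: for
instance for almost all polynomials `P` of degree `d ≥ 2` and `t` near the values of `P` at the integers, and for almost
all `(α_1, …, α_k)` and `t` near `α_1 b_1 ^ (l_1) + ⋯ + α_k b_k ^ (l_k)`.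

Proof. For one family the number of the exceptional integers up to `X` is at most a power of `log X` by the starting theorem
`FewExceptionalParameters`; there are countably many exceptional sets of families over the algebraic numbers. For each `i` the
`α` with an exceptional integer near `α · v_i` are in few neighbourhoods of parallel affine hyperplanes, which are covered by
small cubes (tool of helper251, `Pool.Agent.N251.LF`).
-/

set_option autoImplicit false

open MeasureTheory

namespace Pool.Agent.Results.MP_b7926e_nt.LinearForms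

open Pool.Agent.N251.LF (Fam Sq linear_windows null_of_dim)
open Pool.Agent.K6.H40.TropFew (Generic Algebraic Exc ExcAll countable_excAll excAll_pow)
open Pool.Agent.Results.MP_b7926e_nt.FewExceptionalParameters (member NoAtypical)

/-- **No atypical intersections near the values of generic linear forms.** (1) Let the vectors `v_i` in `ℝ ^ k` have exponent
at most `τ ≥ 0` (`Fam v τ`: at most `C X ^ (τ + ε)` of them have norm at most `X`) and `θ < 1`. There is a set `E` of Hausdorff
dimension at most `k - 1 + τ / (1 - θ)` such that for each `α` outside `E`, for all generic families `(A, c)` with algebraic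
coefficients, in all dimensions `n`, all `r`, all finite sets `Γ` of algebraic numbers and all `C`, for all but finitely many
`i`, every integer `t` with `||t| - |∑ α_j v_(i,j)|| ≤ C ‖v_i‖ ^ θ` satisfies `NoAtypical r Γ X_t`. (2) Sets of dimension `< k`
are null sets. (3) The vectors `(1, l, …, l ^ d)` have exponent `1 / d`, the vectors `(b_1 ^ (l_1), …, b_k ^ (l_k))` exponent
`0`, the vectors `(l_1 ^ (a_1), …, l_k ^ (a_k))` exponent `∑ 1 / a_j`, and more generally products of sequences have the sum
of the exponents. -/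
theorem result :
    (∀ (k : ℕ) (ι : Type) (v : ι → Fin k → ℝ) (τ θ : ℝ), Fam v τ → 0 ≤ τ → θ < 1 →
      ∃ E : Set (Fin k → ℝ), dimH E ≤ ENNReal.ofReal ((k : ℝ) - 1 + τ / (1 - θ)) ∧
        ∀ α, α ∉ E → ∀ (n m r : ℕ) (A : Fin m → Finset (Fin n → ℤ)) (c : Fin m → (Fin n → ℤ) → Polynomial ℂ) (Γ : Set ℂ),
          Generic r A c → Algebraic A c → Γ.Finite → (∀ z ∈ Γ, IsAlgebraic ℚ z) →
          ∀ C : ℝ, {i | ¬ ∀ t : ℤ, |abs (t : ℝ) - abs (∑ j, α j * v i j)| ≤ C * ‖v i‖ ^ θ →
            NoAtypical r Γ (member A c (t : ℂ))}.Finite) ∧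
    (∀ (k : ℕ) (E : Set (Fin k → ℝ)) (s : ℝ), 1 ≤ k → dimH E ≤ ENNReal.ofReal s → s < k → volume E = 0) ∧
    (∀ d : ℕ, 1 ≤ d → Fam (fun (n : ℕ) (j : Fin (d + 1)) => (n : ℝ) ^ (j : ℕ)) (1 / d)) ∧
    (∀ (k : ℕ) (b : Fin k → ℝ), (∀ j, 1 < b j) → Fam (fun (n : Fin k → ℕ) (j : Fin k) => b j ^ n j) 0) ∧
    (∀ (k : ℕ) (a : Fin k → ℝ), (∀ j, 0 < a j) →
      Fam (fun (n : Fin k → ℕ) (j : Fin k) => (n j : ℝ) ^ a j) (∑ j, 1 / a j)) ∧
    ∀ (k : ℕ) (u : Fin k → ℕ → ℝ) (τ : Fin k → ℝ), (∀ j, Sq (u j) (τ j)) →
      Fam (fun (n : Fin k → ℕ) (j : Fin k) => u j (n j)) (∑ j, τ j) := by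
  classical
  refine ⟨fun k ι v τ θ hv hτ hθ => ?_, fun k E s hk hE hs => ?_, Pool.Agent.N251.LF.examples⟩
  · have h1 : ∀ S : {S : Set ℤ // S ∈ ExcAll}, ∃ E : Set (Fin k → ℝ),
        dimH E ≤ ENNReal.ofReal ((k : ℝ) - 1 + τ / (1 - θ)) ∧ ∀ α, α ∉ E → ∀ C : ℝ,
          {i | ∃ t ∈ S.1, |abs (t : ℝ) - ∑ j, α j * v i j| ≤ C * ‖v i‖ ^ θ}.Finite := by
      intro S
      obtain ⟨E, hE, hE2⟩ := linear_windows S.1 (fun t : ℤ => |(t : ℝ)|) v (s := 0) le_rfl hτ hθ hv (excAll_pow S.2)
      rw [zero_add] at hE
      exact ⟨E, hE, hE2⟩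
    choose E hE hE2 using h1
    have hcount : Countable {S : Set ℤ // S ∈ ExcAll} := countable_excAll.to_subtype
    have hneg : ∀ B : Set (Fin k → ℝ), dimH {α : Fin k → ℝ | -α ∈ B} ≤ dimH B := by
      intro B
      have e : {α : Fin k → ℝ | -α ∈ B} = (fun α : Fin k → ℝ => -α) '' B := by
        ext α
        simp only [Set.mem_ofPred_eq, Set.mem_image]
        exact ⟨fun h => ⟨-α, h, neg_neg α⟩, fun ⟨β, hβ, h⟩ => by rw [← h, neg_neg]; exact hβ⟩
      rw [e]
      have hl : LipschitzWith 1 (fun α : Fin k → ℝ => -α) := by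
        refine LipschitzWith.of_dist_le_mul fun x y => ?_
        rw [dist_neg_neg, NNReal.coe_one, one_mul]
      exact hl.dimH_image_le B
    refine ⟨(⋃ S, E S) ∪ ⋃ S, {α : Fin k → ℝ | -α ∈ E S}, ?_, ?_⟩
    · rw [dimH_union, dimH_iUnion, dimH_iUnion]
      refine max_le (iSup_le hE) (iSup_le fun S => (hneg _).trans (hE S))
    · intro α hα n m r A c Γ hg ha hΓ hΓa C
      rw [Set.mem_union, not_or, Set.mem_iUnion, Set.mem_iUnion, not_exists, not_exists] at hα
      obtain ⟨ha1, ha2⟩ := hα
      have hS : Exc r Γ A c ∈ ExcAll := ⟨n, m, r, A, c, Γ, hg, ha, hΓ, hΓa, rfl⟩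
      have f1 := hE2 ⟨_, hS⟩ α (ha1 ⟨_, hS⟩) C
      have f2 := hE2 ⟨_, hS⟩ (-α) (ha2 ⟨_, hS⟩) C
      refine (f1.union f2).subset ?_
      intro i hi
      simp only [Set.mem_ofPred_eq] at hi
      push Not at hi
      obtain ⟨t, h3, h4⟩ := hi
      rcases abs_choice (∑ j, α j * v i j) with h5 | h5
      · left
        refine ⟨t, h4, ?_⟩
        rw [h5] at h3
        exact h3
      · right
        refine ⟨t, h4, ?_⟩
        have h6 : ∑ j, (-α) j * v i j = -∑ j, α j * v i j := by
          rw [← Finset.sum_neg_distrib]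
          exact Finset.sum_congr rfl fun j _ => by rw [Pi.neg_apply, neg_mul]
        rw [h6, ← h5]
        exact h3
  · exact null_of_dim hE (by rw [Fintype.card_fin]; exact hs) (by rw [Fintype.card_fin]; omega)

end Pool.Agent.Results.MP_b7926e_nt.LinearForms
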