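import Pool.Agent.K6.H40.RandNear
import Pool.Agent.K6.H40.TropAll

/-!
# No atypical intersections for the members of families at random integers

**Families.** Let `A_1, …, A_m ⊂ ℤ ^ n` be arbitrary finite nonempty sets of exponents and let `c_jβ ∈ ℂ[t]` be nonzero
polynomials, `β ∈ A_j`. For `t ∈ ℂ` let `X_t ⊂ (ℂ^×) ^ n` be the algebraic set defined by the Laurent polynomials
`f_j = ∑_β c_jβ(t) x ^ β`, `j ≤ m` (`member`); every one-parameter family of subvarieties of the torus is of this form. We
assume that the family is `Generic`: for some algebraic numbers `α_1, …, α_M` no linear subspace of `ℚ ^ n` of dimension less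
than `r` meets all the tropicalizations of the family at the `α_l`. The set `X_t` is said to have no atypical intersections
(`NoAtypical r Γ`) if every irreducible subset of `X_t ∩ η H` has dimension at most `dim H - r`, for the cosets `η H` of all
algebraic subgroups `H` of the torus by all points `η` whose coordinates are units of the integral closure of `ℤ[Γ]` in `ℂ`
(in particular for all torsion cosets); then all components `V` of `X_t` have dimension at most `n - r`, and for those of
dimension `n - r` the union `Atyp(V)` of the problem is empty.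

(1) Let `R` be a random set of positive integers such that `k` belongs to `R` with probability at most `D k ^ (-γ)`, `γ > 0`
(no independence is assumed), `0 ≤ κ < γ`, and let `G` have steps bounded below by a positive constant and at most polynomial
growth, for example `G k = a k ^ d`. Almost surely the following holds for ALL generic families of subvarieties of tori of all
dimensions whose coefficients are polynomials over the algebraic numbers, all `r` and all finite sets `Γ` of algebraic
numbers: for all but finitely many `k` in `R`, for EVERY integer `t` with `||t| - G k| ≤ k ^ κ`, the member `X_t` has no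
atypical intersections.

(2) For each generic family with complex coefficients and each finite set `Γ` of complex numbers there is `s` such that the
same holds for random sets of integers `R` of logarithmic density: let `t` belong to `R` with probability at most
`D (log (|t| + 3)) ^ (-K)`, `K > s` (no independence). Almost surely, for all but finitely many `t` in `R` the member `X_t` has
no atypical intersections; the probability that this fails for some `t` in `R` with `log (|t| + 3) ≥ z` is at most
`B z ^ (-η)` if `s + η < K`. The random sets in (2) can have up to `X / (log X) ^ K` elements up to `X`.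

Proof. For one family the number of the exceptional integers up to `X` is at most a power of `log X` by the starting theorem
`FewExceptionalParameters`; there are countably many exceptional sets of families over the algebraic numbers. Then the
lemma of Borel and Cantelli applies.
-/

set_option autoImplicit false

open MeasureTheory

namespace Pool.Agent.Results.MP_b7926e_nt.RandomSets

open Pool.Agent.N671.DA (Expanding expanding_pow)
open Pool.Agent.K6.H40.RandNear (Sparse rand_windows)
open Pool.Agent.K6.H40.TropFew (Generic Algebraic Exc ExcAll countable_excAll excAll_pow H one_le_H summable_log)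
open Pool.Agent.Results.MP_b7926e_nt.FewExceptionalParameters (member NoAtypical)

/-- **No atypical intersections at random integers.** (1) Let `k` belong to the random set `R` of positive integers with
probability at most `D k ^ (-γ)` (`Sparse P R γ D`), `0 ≤ κ < γ`, `κ ≤ 1`, and let `G` have steps `≥ a > 0` and growth at most
`v ^ d`. Almost surely, for all generic families `(A, c)` with algebraic coefficients, in all dimensions `n`, all `r` and all
finite sets `Γ` of algebraic numbers, for all large `k` in `R`, every integer `t` with `||t| - G k| ≤ k ^ κ` satisfies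
`NoAtypical r Γ X_t`. (2) For every generic family `(A, c)`, with complex coefficients, and every finite set `Γ` of complex
numbers there is `s` such that for every random set `R` of integers, `t` in `R` with probability at most
`D (log (|t| + 3)) ^ (-K)`, `K > s`: almost surely `NoAtypical r Γ X_t` for all but finitely many `t` in `R`, and the
probability that this fails for some `t` in `R` with `log (|t| + 3) ≥ z` is at most `B z ^ (-η)` if `s + η < K`. The
functions `a v ^ d` with `a > 0`, `d ≥ 1` are examples of `G`. -/
theorem result :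
    (∀ (G : ℕ → ℝ) (d : ℝ), Expanding G d → ∀ κ γ D : ℝ, 0 ≤ κ → κ ≤ 1 → κ < γ →
      ∀ (Ω : Type) [MeasurableSpace Ω] (P : Measure Ω) (R : Ω → Set ℕ), Sparse P R γ D →
        ∀ᵐ ω ∂P, ∀ (n m r : ℕ) (A : Fin m → Finset (Fin n → ℤ)) (c : Fin m → (Fin n → ℤ) → Polynomial ℂ) (Γ : Set ℂ),
          Generic r A c → Algebraic A c → Γ.Finite → (∀ z ∈ Γ, IsAlgebraic ℚ z) →
          ∃ N : ℕ, ∀ k ∈ R ω, N ≤ k → ∀ t : ℤ, |abs (t : ℝ) - G k| ≤ (k : ℝ) ^ κ →
            NoAtypical r Γ (member A c (t : ℂ))) ∧
    (∀ (n m r : ℕ) (A : Fin m → Finset (Fin n → ℤ)) (c : Fin m → (Fin n → ℤ) → Polynomial ℂ) (Γ : Set ℂ),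
      Generic r A c → Γ.Finite → ∃ s : ℕ,
      ∀ (Ω : Type) [MeasurableSpace Ω] (P : Measure Ω) (R : Ω → Set ℤ) (K D : ℝ),
        (∀ t : ℤ, P {ω | t ∈ R ω} ≤ ENNReal.ofReal (D * Real.log (|(t : ℝ)| + 3) ^ (-K))) →
        ((s : ℝ) < K → ∀ᵐ ω ∂P, {t : ℤ | t ∈ R ω ∧ ¬ NoAtypical r Γ (member A c (t : ℂ))}.Finite) ∧
        ∀ η : ℝ, 0 ≤ η → s + η < K → ∃ B : ℝ, ∀ z : ℝ, 1 ≤ z →
          P {ω | ∃ t ∈ R ω, z ≤ Real.log (|(t : ℝ)| + 3) ∧ ¬ NoAtypical r Γ (member A c (t : ℂ))} ≤
            ENNReal.ofReal (B * z ^ (-η))) ∧
    ∀ α d : ℝ, 0 < α → 1 ≤ d → Expanding (fun v => α * (v : ℝ) ^ d) d := by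
  classical
  refine ⟨fun G d hG κ γ D hκ hκ1 hγ Ω _ P R hR => ?_, fun n m r A c Γ hg hΓ => ?_,
    fun α d hα hd => expanding_pow hα hd⟩
  · have hcount : Countable {S : Set ℤ // S ∈ ExcAll} := countable_excAll.to_subtype
    have h1 : ∀ᵐ ω ∂P, ∀ S : {S : Set ℤ // S ∈ ExcAll}, ∃ N : ℕ, ∀ k ∈ R ω, N ≤ k →
        ∀ t ∈ S.1, ¬ |abs (t : ℝ) - G k| ≤ (k : ℝ) ^ κ := by
      rw [ae_all_iff]
      intro S
      exact (rand_windows (P := P) S.1 (fun t : ℤ => |(t : ℝ)|) hG (s := 0) (κ := κ) le_rfl hκ hκ1 (excAll_pow S.2)
        hR).1 (by linarith)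
    filter_upwards [h1] with ω hω n m r A c Γ hg ha hΓ hΓa
    have hS : Exc r Γ A c ∈ ExcAll := ⟨n, m, r, A, c, Γ, hg, ha, hΓ, hΓa, rfl⟩
    obtain ⟨N, hN⟩ := hω ⟨_, hS⟩
    refine ⟨N, fun k hk hNk t ht => ?_⟩
    by_contra hcon
    exact hN k hk hNk t hcon ht
  · obtain ⟨s, hs⟩ := summable_log hg hΓ
    refine ⟨s, fun Ω _ P R K D hR => ?_⟩
    have key : ∀ η : ℝ, 0 ≤ η → s + η < K →
        (∀ᵐ ω ∂P, {t : ℤ | t ∈ Exc r Γ A c ∧ t ∈ R ω}.Finite) ∧ ∃ B : ℝ, ∀ y : ℝ, 1 ≤ y →
          P {ω | ∃ t : ℤ, t ∈ Exc r Γ A c ∧ y ≤ H t ∧ t ∈ R ω} ≤ ENNReal.ofReal (B * y ^ (-η)) := by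
      intro η hη h
      exact Pool.Agent.R909.RS.main_subtype (T := ℤ) (H := H) (Q := fun t => t ∈ Exc r Γ A c)
        (E := fun t => {ω | t ∈ R ω}) (C := D) (q := K) (p := K - η) (fun t _ => one_le_H t)
        (fun t _ => hR t) hη (by linarith) (hs (K - η) (by linarith))
    refine ⟨fun h => ?_, fun η hη h => ?_⟩
    · filter_upwards [(key 0 le_rfl (by linarith)).1] with ω hω
      refine hω.subset ?_
      rintro t ⟨h1, h2⟩
      exact ⟨h2, h1⟩
    · obtain ⟨B, hB⟩ := (key η hη h).2
      refine ⟨B, fun z hz => (measure_mono ?_).trans (hB z hz)⟩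
      rintro ω ⟨t, h1, h2, h3⟩
      exact ⟨t, h3, h2, h1⟩

end Pool.Agent.Results.MP_b7926e_nt.RandomSets
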