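import Pool.Agent.R482.ST.Star
import Pool.Agent.K6.H40.TropAll

/-!
# No atypical intersections for the members of all families at integers near powers, orbits and other sequences

**Families.** Let `A_1, …, A_m ⊂ ℤ ^ n` be arbitrary finite nonempty sets of exponents and let `c_jβ ∈ ℂ[t]` be nonzero
polynomials, `β ∈ A_j`. For `t ∈ ℂ` let `X_t ⊂ (ℂ^×) ^ n` be the algebraic set defined by the Laurent polynomials
`f_j = ∑_β c_jβ(t) x ^ β`, `j ≤ m` (`member`); every one-parameter family of subvarieties of the torus is of this form. We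
assume that the family is `Generic`: for some algebraic numbers `α_1, …, α_M` no linear subspace of `ℚ ^ n` of dimension less
than `r` meets all the tropicalizations of the family at the `α_l`. The set `X_t` is said to have no atypical intersections
(`NoAtypical r Γ`) if every irreducible subset of `X_t ∩ η H` has dimension at most `dim H - r`, for the cosets `η H` of all
algebraic subgroups `H` of the torus by all points `η` whose coordinates are units of the integral closure of `ℤ[Γ]` in `ℂ`
(in particular for all torsion cosets); then all components `V` of `X_t` have dimension at most `n - r`, and for those of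
dimension `n - r` the union `Atyp(V)` of the problem is empty.

Let `f_n`, `n = 0, 1, 2, …`, be positive functions on `(a, ∞)`, `a ≥ 0`, such that `f_n(x) / x` is nondecreasing, and such
that the sequence `f_n(x)` has exponent of convergence at most `τ` for each `x > a`: for instance `f_n(x) = x ^ (v_n)` for
exponents `v_n ≥ 1` (`τ = 0`; all powers, the powers `x ^ (3 ^ n)` of Mills, …), the orbits `f_n(x) = g (g (⋯ g (x)))` of any
map `g` with `g(x) > x` and `g(x) / x` nondecreasing (`τ = 0`; for instance of `x² + c`), and `f_n(x) = v_n x`. Let `θ < 1`. We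
show that for all `x > a` outside a set of Hausdorff dimension at most `τ / (1 - θ)` the following holds for ALL generic
families of subvarieties of tori of all dimensions whose coefficients are polynomials over the algebraic numbers, all `r`
and all finite sets `Γ` of algebraic numbers: for all `C` and all but finitely many `n`, for EVERY integer `t` with
`||t| - f_n(x)| ≤ C f_n(x) ^ θ`, the member `X_t` has no atypical intersections. For example: for all `x > 1` outside a set of
dimension ZERO this holds for all integers `t` with `|t - x ^ n| ≤ x ^ (θ n)`, `θ < 1`, with finitely many exceptions for each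
family.

Proof. For one family the number of the exceptional integers up to `X` is at most a power of `log X` by the starting theorem
`FewExceptionalParameters`; there are countably many exceptional sets of families over the algebraic numbers. The `x` such
that there is an exceptional integer near `f_n(x)` are covered by few short intervals (tool of helper482,
`Pool.Agent.R482.ST`).
-/

set_option autoImplicit false

namespace Pool.Agent.Results.MP_b7926e_nt.StarshapedWindows

open Pool.Agent.R482.ST (Starshaped Conv windows)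
open Pool.Agent.K6.H40.TropFew (Generic Algebraic Exc ExcAll countable_excAll excAll_pow)
open Pool.Agent.Results.MP_b7926e_nt.FewExceptionalParameters (member NoAtypical)

/-- **No atypical intersections near powers, orbits and other sequences.** (1) Let `f` be starshaped functions on `(a, ∞)`
(`Starshaped a f`: positive, `f_k(x) / x` nondecreasing) of exponent of convergence at most `τ ≥ 0` (`Conv a f τ`) and
`θ < 1`. There is a set `E` of Hausdorff dimension at most `τ / (1 - θ)` such that for each `x > a` outside `E`, for all generic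
families `(A, c)` with algebraic coefficients, in all dimensions `n`, all `r`, all finite sets `Γ` of algebraic numbers and
all `C`, for all large `k`, every integer `t` with `||t| - f_k(x)| ≤ C f_k(x) ^ θ` satisfies `NoAtypical r Γ X_t`.
(2) The functions `v_k x`, `v_k > 0`, are starshaped on `(0, ∞)`, of exponent `τ` if `v` has exponent of convergence at most
`τ`; the functions `x ^ (v_k)`, `v_k ≥ 1`, are starshaped on `(1, ∞)`, of exponent `0` if the sums of `exp (-t v_k)` converge
for `t > 0`; and the iterates of a map `g` with `g(x) > x` for `x > a` and `g(x) / x` nondecreasing are starshaped on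
`(a, ∞)`, of exponent `0`. -/
theorem result :
    (∀ (f : ℕ → ℝ → ℝ) (a τ θ : ℝ), Starshaped a f → 0 ≤ τ → Conv a f τ → θ < 1 →
      ∃ E : Set ℝ, dimH E ≤ ENNReal.ofReal (τ / (1 - θ)) ∧
        ∀ x : ℝ, a < x → x ∉ E → ∀ (n m r : ℕ) (A : Fin m → Finset (Fin n → ℤ)) (c : Fin m → (Fin n → ℤ) → Polynomial ℂ) (Γ : Set ℂ),
          Generic r A c → Algebraic A c → Γ.Finite → (∀ z ∈ Γ, IsAlgebraic ℚ z) →
          ∀ C : ℝ, ∃ k₀ : ℕ, ∀ k : ℕ, k₀ ≤ k → ∀ t : ℤ, |abs (t : ℝ) - f k x| ≤ C * (f k x) ^ θ →
            NoAtypical r Γ (member A c (t : ℂ))) ∧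
    (∀ (v : ℕ → ℝ) (τ : ℝ), (∀ n, 0 < v n) → (∀ t : ℝ, τ < t → Summable (fun n : ℕ => (v n) ^ (-t))) →
      Starshaped 0 (fun n x => v n * x) ∧ Conv 0 (fun n x => v n * x) τ) ∧
    (∀ v : ℕ → ℝ, (∀ n, 1 ≤ v n) → (∀ t : ℝ, 0 < t → Summable fun n : ℕ => Real.exp (-(t * v n))) →
      Starshaped 1 (fun n x => x ^ (v n)) ∧ Conv 1 (fun n x => x ^ (v n)) 0) ∧
    (∀ (a : ℝ) (g : ℝ → ℝ), 0 ≤ a → (∀ x y : ℝ, a < x → x ≤ y → g x / x ≤ g y / y) → (∀ x : ℝ, a < x → x < g x) →
      Starshaped a (fun n x => g^[n] x) ∧ Conv a (fun n x => g^[n] x) 0) := by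
  classical
  refine ⟨fun f a τ θ hf hτ hv hθ => ?_, Pool.Agent.R482.ST.ex_mul, Pool.Agent.R482.ST.ex_pow,
    Pool.Agent.R482.ST.ex_orbit⟩
  have h1 : ∀ S : {S : Set ℤ // S ∈ ExcAll}, ∃ E : Set ℝ,
      dimH E ≤ ENNReal.ofReal (τ / (1 - θ)) ∧ ∀ x : ℝ, a < x → x ∉ E → ∀ C : ℝ,
        ∃ n₀ : ℕ, ∀ n : ℕ, n₀ ≤ n → ∀ t ∈ S.1, C * (f n x) ^ θ < |abs (t : ℝ) - f n x| := by
    intro S
    obtain ⟨E, hE, hE2⟩ := windows S.1 (fun t : ℤ => |(t : ℝ)|) hf hτ hv (s := 0) le_rfl hθ (excAll_pow S.2)
    rw [zero_add] at hE
    exact ⟨E, hE, hE2⟩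
  choose E hE hE2 using h1
  have hcount : Countable {S : Set ℤ // S ∈ ExcAll} := countable_excAll.to_subtype
  refine ⟨⋃ S, E S, ?_, ?_⟩
  · rw [dimH_iUnion]
    exact iSup_le hE
  · intro x hx hxE n m r A c Γ hg ha hΓ hΓa C
    rw [Set.mem_iUnion, not_exists] at hxE
    have hS : Exc r Γ A c ∈ ExcAll := ⟨n, m, r, A, c, Γ, hg, ha, hΓ, hΓa, rfl⟩
    obtain ⟨n₀, hn₀⟩ := hE2 ⟨_, hS⟩ x hx (hxE ⟨_, hS⟩) C
    refine ⟨n₀, fun k hk t ht => ?_⟩
    by_contra hcon
    exact absurd (hn₀ k hk t hcon) (not_lt.2 ht)

end Pool.Agent.Results.MP_b7926e_nt.StarshapedWindows
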