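import Pool.Agent.N760.IT.C
import Pool.Agent.K6.H40.TropAll

/-!
# No atypical intersections for the members of families at integers near the members of almost all orbits of Euler's function

**Families.** Let `A_1, …, A_m ⊂ ℤ ^ n` be arbitrary finite nonempty sets of exponents and let `c_jβ ∈ ℂ[t]` be nonzero
polynomials, `β ∈ A_j`. For `t ∈ ℂ` let `X_t ⊂ (ℂ^×) ^ n` be the algebraic set defined by the Laurent polynomials
`f_j = ∑_β c_jβ(t) x ^ β`, `j ≤ m` (`member`); every one-parameter family of subvarieties of the torus is of this form. We
assume that the family is `Generic`: for some algebraic numbers `α_1, …, α_M` no linear subspace of `ℚ ^ n` of dimension less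
than `r` meets all the tropicalizations of the family at the `α_l`. The set `X_t` is said to have no atypical intersections
(`NoAtypical r Γ`) if every irreducible subset of `X_t ∩ η H` has dimension at most `dim H - r`, for the cosets `η H` of all
algebraic subgroups `H` of the torus by all points `η` whose coordinates are units of the integral closure of `ℤ[Γ]` in `ℂ`
(in particular for all torsion cosets); then all components `V` of `X_t` have dimension at most `n - r`, and for those of
dimension `n - r` the union `Atyp(V)` of the problem is empty.

Let `φ_k` be the `k`-th iterate of Euler's function, `φ_0(l) = l`. Let `f` be a positive multiplicative function of at most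
polynomial growth such that `f p ≤ M p` for the large primes `p`, with different values at different large primes; for
example the identity, Euler's function or the sum of the divisors. Let `G` have steps bounded below by a positive constant
and at most polynomial growth, for example `G v = a v ^ d`, and `0 ≤ κ < 1`. For every generic family (with complex
coefficients), every finite set `Γ` of complex numbers there is a function `J(l)` tending to infinity such that for almost all
`l`, for all `k ≤ J(l)`, with `v = f(φ_k(l))`, for EVERY integer `t` with `||t| - G v| ≤ v ^ κ`, the member `X_t` has no atypical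
intersections.

The iterates of Euler's function are not multiplicative, their values form a very thin set and are taken with very large
multiplicities, and so this does not follow from the number of the exceptional integers alone.

Proof. The number of the exceptional integers up to `X` is at most a power of `log X` by the starting theorem
`FewExceptionalParameters`. Let `P` be the largest prime factor of `l`; for most `l` it is
greater than a power of `l` close to `1 / L`, `L → ∞` slowly; `P - 1` divides `φ(l)`, and so on: one finds that `f(φ_k(l))` is,
outside a set of density `0`, determined by few data, and falls into a set with a power saving rarely (tool of helper760,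
`N760/IT`).
-/

set_option autoImplicit false

open Filter

namespace Pool.Agent.Results.MP_b7926e_nt.TotientOrbits

open Pool.Agent.N733.TG (LM Expanding lm_totient lm_sigma expanding_pow)
open Pool.Agent.N760.IT (orb lm_id orbit_windows)
open Pool.Agent.N826.IT.Orb (AlmostAll almostAll_mono)
open Pool.Agent.K6.H40.TropFew (Generic Exc count_pow)
open Pool.Agent.Results.MP_b7926e_nt.FewExceptionalParameters (member NoAtypical)

/-- **No atypical intersections near the orbits of Euler's function.** `orb f k l` is `f(φ_k(l))`, `φ_k` the `k`-th
iterate of Euler's function, `φ_0(l) = l`. Let `(A, c)` be a generic family with complex coefficients, `Γ` a finite set of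
complex numbers, let `f` be multiplicative and positive, of at most polynomial growth, with `f p ≤ M p` at the large primes,
and injective there, let `G` have steps `≥ a > 0` and growth at most `v ^ d`, and `0 ≤ κ < 1`. There is `J(l)` tending to
infinity such that for almost all `l` (all `l ≤ N` but `o(N)`), for all `k ≤ J(l)`, every integer `t` with
`||t| - G (f (φ_k l))| ≤ f(φ_k(l)) ^ κ` satisfies `NoAtypical r Γ X_t`. The identity, Euler's function
and the sum of the divisors are examples of such functions `f`, and `a v ^ d` with `a > 0`, `d ≥ 1` is an example of `G`. -/
theorem result :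
    (∀ (n m r : ℕ) (A : Fin m → Finset (Fin n → ℤ)) (c : Fin m → (Fin n → ℤ) → Polynomial ℂ) (Γ : Set ℂ),
      Generic r A c → Γ.Finite → ∀ f : ℕ → ℕ, LM f → ∀ (G : ℕ → ℝ) (d : ℝ), Expanding G d → ∀ κ : ℝ, 0 ≤ κ → κ < 1 →
      ∃ J : ℕ → ℕ, Tendsto J atTop atTop ∧ AlmostAll (fun l => ∀ k ≤ J l, ∀ t : ℤ,
        |abs (t : ℝ) - G (orb f k l)| ≤ (orb f k l : ℝ) ^ κ → NoAtypical r Γ (member A c (t : ℂ)))) ∧
    (LM (fun m => m) ∧ LM Nat.totient ∧ LM (fun m => ∑ d ∈ m.divisors, d)) ∧
    ∀ α d : ℝ, 0 < α → 1 ≤ d → Expanding (fun v => α * (v : ℝ) ^ d) d := by
  classical
  refine ⟨fun n m r A c Γ hg hΓ f hf G d hG κ hκ h1 => ?_, ⟨lm_id, lm_totient, lm_sigma⟩,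
    fun α d hα hd => expanding_pow hα hd⟩
  obtain ⟨J, hJ, hJ2⟩ := orbit_windows (Exc r Γ A c) (fun t : ℤ => |(t : ℝ)|) hf hG (s := 0) (κ := κ)
    le_rfl hκ (by linarith) (count_pow hg hΓ)
  refine ⟨J, hJ, almostAll_mono hJ2 (fun l hl k hk t ht => ?_)⟩
  by_contra hcon
  exact hl k hk t hcon ht

end Pool.Agent.Results.MP_b7926e_nt.TotientOrbits
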